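import Mathlib

set_option autoImplicit false

open MeasureTheory ProbabilityTheory Filter Topology
open scoped ENNReal

namespace Pool.Agent.Results.MP_0b4a43_pr.OrbitSpan

/-- Operators on `ℝ^m`. -/
abbrev Op (m : ℕ) := (Fin m → ℝ) →L[ℝ] (Fin m → ℝ)

/-- `ψ ν w` is the mean of `min 1 ‖a w‖`. -/
noncomputable def psi {m : ℕ} (ν : Measure (Op m)) (w : Fin m → ℝ) : ℝ≥0∞ :=
  ∫⁻ a, min 1 ‖a w‖ₑ ∂ν

lemma meas_eval {m : ℕ} {α : Type*} [MeasurableSpace α] {f : α → Op m} {g : α → Fin m → ℝ}
    (hf : Measurable f) (hg : Measurable g) :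
    Measurable (fun p : α => min (1 : ℝ≥0∞) ‖(f p) (g p)‖ₑ) := by
  have h : Continuous (fun p : Op m × (Fin m → ℝ) => p.1 p.2) := by fun_prop
  have h2 : Measurable (fun p : α => (f p) (g p)) := h.measurable.comp (hf.prodMk hg)
  exact measurable_const.min h2.enorm

lemma meas_eval1 {m : ℕ} (w : Fin m → ℝ) :
    Measurable (fun a : Op m => min (1 : ℝ≥0∞) ‖a w‖ₑ) :=
  meas_eval measurable_id measurable_const

lemma min_one_mul_le (c x : ℝ≥0∞) : min 1 (c * x) ≤ (1 + c) * min 1 x := by
  rcases le_total x 1 with h | h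
  · rw [min_eq_right h]
    refine (min_le_right _ _).trans ?_
    gcongr
    exact le_add_self
  · rw [min_eq_left h, mul_one]
    exact (min_le_left _ _).trans le_self_add

lemma min_one_add_le (x y : ℝ≥0∞) : min 1 (x + y) ≤ min 1 x + min 1 y := by
  rcases le_total x 1 with h | h
  · rcases le_total y 1 with h' | h'
    · rw [min_eq_right h, min_eq_right h']; exact min_le_right _ _
    · rw [min_eq_left h']; exact (min_le_left _ _).trans le_add_self
  · rw [min_eq_left h]; exact (min_le_left _ _).trans le_self_add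

lemma psi_add {m : ℕ} (ν : Measure (Op m)) (w w' : Fin m → ℝ) :
    psi ν (w + w') ≤ psi ν w + psi ν w' := by
  unfold psi
  rw [← lintegral_add_left (meas_eval1 w)]
  refine lintegral_mono fun a => ?_
  refine le_trans ?_ (min_one_add_le _ _)
  gcongr
  rw [map_add]
  exact enorm_add_le _ _

lemma psi_smul {m : ℕ} (ν : Measure (Op m)) (c : ℝ) (w : Fin m → ℝ) :
    psi ν (c • w) ≤ (1 + ‖c‖ₑ) * psi ν w := by
  unfold psi
  rw [← lintegral_const_mul _ (meas_eval1 w)]
  refine lintegral_mono fun a => ?_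
  rw [map_smul, enorm_smul]
  exact min_one_mul_le _ _

lemma psi_zero {m : ℕ} (ν : Measure (Op m)) : psi ν 0 = 0 := by
  simp [psi]

/-- The submodule of vectors killed in probability along a subsequence. -/
noncomputable def kill {m : ℕ} (ν : ℕ → Measure (Op m)) : Submodule ℝ (Fin m → ℝ) where
  carrier := {w | Tendsto (fun k => psi (ν k) w) atTop (𝓝 0)}
  zero_mem' := by simp [psi_zero]
  add_mem' := by
    intro a b ha hb
    have := Tendsto.add ha hb
    rw [add_zero] at this
    exact tendsto_of_tendsto_of_tendsto_of_le_of_le tendsto_const_nhds this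
      (fun _ => zero_le) (fun k => psi_add _ _ _)
  smul_mem' := by
    intro c w hw
    have := ENNReal.Tendsto.const_mul (a := (1 + ‖c‖ₑ)) hw (Or.inr (by simp))
    rw [mul_zero] at this
    exact tendsto_of_tendsto_of_tendsto_of_le_of_le tendsto_const_nhds this
      (fun _ => zero_le) (fun k => psi_smul _ _ _)

/-- `a` preserves `W`. -/
def Pres {m : ℕ} (W : Submodule ℝ (Fin m → ℝ)) (a : Op m) : Prop := ∀ w ∈ W, a w ∈ W

lemma Pres.mul {m : ℕ} {W : Submodule ℝ (Fin m → ℝ)} {a b : Op m} (ha : Pres W a)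
    (hb : Pres W b) : Pres W (a * b) := fun w hw => ha _ (hb w hw)

lemma measurableSet_pres {m : ℕ} (W : Submodule ℝ (Fin m → ℝ)) :
    MeasurableSet {a : Op m | Pres W a} := by
  apply IsClosed.measurableSet
  have : {a : Op m | Pres W a} = ⋂ w ∈ W, {a : Op m | a w ∈ (W : Set (Fin m → ℝ))} := by
    ext a
    simp [Pres]
  rw [this]
  refine isClosed_biInter fun w _ => ?_
  exact (Submodule.closed_of_finiteDimensional W).preimage
    (by fun_prop : Continuous (fun a : Op m => a w))

/-- The minimal subspace: it contains all differences, is preserved, and its vectors are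
killed along a subsequence. -/
theorem exists_min {m : ℕ} (ν : ℕ → Measure (Op m)) [∀ t, IsProbabilityMeasure (ν t)]
    (hconv : ∀ s t, ν (s + t) = ((ν s).prod (ν t)).map (fun p => p.1 * p.2))
    (v : Fin m → ℝ)
    (hcv : ∀ s, Tendsto (fun t => ∫⁻ p, min 1 ‖p.1 (p.2 v - v)‖ₑ ∂((ν t).prod (ν s)))
      atTop (𝓝 0)) :
    ∃ W : Submodule ℝ (Fin m → ℝ), (∀ᵐ a ∂(ν 1), a v - v ∈ W) ∧ (∀ t, 1 ≤ t → ∀ᵐ a ∂(ν t), Pres W a) ∧
      ∃ τ : ℕ → ℕ, (∀ k, 1 ≤ τ k) ∧ ∀ w ∈ W, Tendsto (fun k => psi (ν (τ k)) w) atTop (𝓝 0) := by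
  classical
  -- minimal subspace
  let 𝒲 : Set (Submodule ℝ (Fin m → ℝ)) := {W | ∀ s, ∀ᵐ b ∂(ν s), b v - v ∈ W}
  have htop : (⊤ : Submodule ℝ (Fin m → ℝ)) ∈ 𝒲 := fun s => by simp
  obtain ⟨W, hW, hmin⟩ := WellFounded.has_min
    (wellFounded_lt : WellFounded (α := Submodule ℝ (Fin m → ℝ)) (· < ·)) 𝒲 ⟨⊤, htop⟩
  have hmin' : ∀ W' ∈ 𝒲, W ≤ W' := by
    intro W' hW'
    have hinf : W ⊓ W' ∈ 𝒲 := by
      intro s
      filter_upwards [hW s, hW' s] with b hb hb'
      exact ⟨hb, hb'⟩
    have := hmin _ hinf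
    have hle : W ⊓ W' ≤ W := inf_le_left
    rcases hle.lt_or_eq with h | h
    · exact absurd h this
    · rw [← h]; exact inf_le_right
  -- invariance
  have hmeas : Measurable (fun p : Op m × Op m => p.1 * p.2) := measurable_mul
  have hinv1 : ∀ᵐ a ∂(ν 1), Pres W a := by
    have : ∀ s, ∀ᵐ a ∂(ν 1), ∀ᵐ b ∂(ν s), a (b v - v) ∈ W := by
      intro s
      have e1 : ∀ᵐ p ∂((ν 1).prod (ν s)), (p.1 * p.2) v - v ∈ W := by
        have := hW (1 + s)
        rw [hconv] at this
        exact ae_of_ae_map hmeas.aemeasurable this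
      have e2 : ∀ᵐ p ∂((ν 1).prod (ν s)), p.1 v - v ∈ W :=
        Measure.quasiMeasurePreserving_fst.ae (hW 1)
      have e3 : ∀ᵐ p ∂((ν 1).prod (ν s)), p.1 (p.2 v - v) ∈ W := by
        filter_upwards [e1, e2] with p hp1 hp2
        have : p.1 (p.2 v - v) = ((p.1 * p.2) v - v) - (p.1 v - v) := by
          rw [map_sub]
          simp
        rw [this]
        exact W.sub_mem hp1 hp2
      exact Measure.ae_ae_of_ae_prod e3
    rw [← ae_all_iff] at this
    filter_upwards [this] with a ha
    have : W ≤ W.comap (a.toLinearMap) := by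
      apply hmin'
      intro s
      exact ha s
    exact this
  have hinv : ∀ t, 1 ≤ t → ∀ᵐ a ∂(ν t), Pres W a := by
    intro t ht
    induction t, ht using Nat.le_induction with
    | base => exact hinv1
    | succ t ht ih =>
      rw [hconv]
      rw [ae_map_iff hmeas.aemeasurable (measurableSet_pres W)]
      have e1 : ∀ᵐ p ∂((ν t).prod (ν 1)), Pres W p.1 :=
        Measure.quasiMeasurePreserving_fst.ae ih
      have e2 : ∀ᵐ p ∂((ν t).prod (ν 1)), Pres W p.2 :=
        Measure.quasiMeasurePreserving_snd.ae hinv1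
      filter_upwards [e1, e2] with p hp1 hp2
      exact hp1.mul hp2
  -- subsequence
  have hsub : ∀ k : ℕ, ∃ t, 1 ≤ t ∧ ∀ s ≤ k,
      ∫⁻ p, min 1 ‖p.1 (p.2 v - v)‖ₑ ∂((ν t).prod (ν s)) ≤ (2⁻¹ : ℝ≥0∞) ^ k := by
    intro k
    have : ∀ᶠ t in atTop, ∀ s ∈ Finset.range (k + 1),
        ∫⁻ p, min 1 ‖p.1 (p.2 v - v)‖ₑ ∂((ν t).prod (ν s)) ≤ (2⁻¹ : ℝ≥0∞) ^ k := by
      rw [eventually_all_finset]
      intro s _
      refine (hcv s).eventually_le_const ?_
      exact ENNReal.pow_pos (by simp) _
    obtain ⟨t, ht1, ht2⟩ := ((eventually_ge_atTop 1).and this).exists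
    exact ⟨t, ht1, fun s hs => ht2 s (by simpa [Nat.lt_succ_iff] using hs)⟩
  choose τ hτ1 hτ2 using hsub
  have hkill : W ≤ kill (fun k => ν (τ k)) := by
    apply hmin'
    intro s
    have hc : Measurable (fun b : Op m => b v - v) :=
      (by fun_prop : Continuous (fun b : Op m => b v - v)).measurable
    have hmp : ∀ t, Measurable (fun b : Op m => psi (ν t) (b v - v)) := by
      intro t
      unfold psi
      exact Measurable.lintegral_prod_right'
        (f := fun p : Op m × Op m => min (1 : ℝ≥0∞) ‖p.2 (p.1 v - v)‖ₑ)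
        (meas_eval measurable_snd (hc.comp measurable_fst))
    have hint : ∀ t, ∫⁻ b, psi (ν t) (b v - v) ∂(ν s)
        = ∫⁻ p, min 1 ‖p.1 (p.2 v - v)‖ₑ ∂((ν t).prod (ν s)) := by
      intro t
      rw [lintegral_prod_symm]
      · rfl
      · exact (meas_eval measurable_fst (hc.comp measurable_snd)).aemeasurable
    have hsum : ∫⁻ b, ∑' k, psi (ν (τ (k + s))) (b v - v) ∂(ν s) ≠ ⊤ := by
      rw [lintegral_tsum (fun k => (hmp _).aemeasurable)]
      refine ne_top_of_le_ne_top ?_ (ENNReal.tsum_le_tsum (fun k => ?_)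
        (g := fun k => (2⁻¹ : ℝ≥0∞) ^ (k + s)))
      · simp only [pow_add]
        rw [ENNReal.tsum_mul_right, ENNReal.tsum_geometric]
        refine ENNReal.mul_ne_top ?_ (by simp)
        simp
      · rw [hint]
        exact hτ2 (k + s) s (by omega)
    have := ae_lt_top (Measurable.tsum (fun k => hmp _)) hsum
    filter_upwards [this] with b hb
    show Tendsto _ _ _
    have h := ENNReal.tendsto_atTop_zero_of_tsum_ne_top hb.ne
    exact (tendsto_add_atTop_iff_nat s).1 h
  exact ⟨W, hW 1, hinv, τ, hτ1, fun w hw => hkill hw⟩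


/-- The determinant of the compression of `a` to `W`. -/
noncomputable def dl {m n : ℕ} {W : Submodule ℝ (Fin m → ℝ)} (b : Module.Basis (Fin n) ℝ W)
    (p : (Fin m → ℝ) →ₗ[ℝ] W) (a : Op m) : ℝ :=
  Matrix.det (Matrix.of fun i j => b.repr (p (a (b j))) i)

lemma dl_eq {m n : ℕ} {W : Submodule ℝ (Fin m → ℝ)} (b : Module.Basis (Fin n) ℝ W)
    (p : (Fin m → ℝ) →ₗ[ℝ] W) (a : Op m) :
    dl b p a = LinearMap.det (p ∘ₗ a.toLinearMap ∘ₗ W.subtype) := by
  rw [dl, ← LinearMap.det_toMatrix b]
  congr 1
  ext i j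
  simp [LinearMap.toMatrix_apply]

lemma dl_mul {m n : ℕ} {W : Submodule ℝ (Fin m → ℝ)} (b : Module.Basis (Fin n) ℝ W)
    (p : (Fin m → ℝ) →ₗ[ℝ] W) (hp : ∀ w : W, p w = w) {a a' : Op m} (h : Pres W a') :
    dl b p (a * a') = dl b p a * dl b p a' := by
  rw [dl_eq, dl_eq, dl_eq, ← LinearMap.det_comp]
  congr 1
  ext1 w
  simp only [LinearMap.comp_apply, Submodule.subtype_apply]
  have : ((p (a' w) : W) : Fin m → ℝ) = a' w := by
    have := hp ⟨a' w, h _ w.2⟩
    simpa using congrArg Subtype.val this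
  show p ((a * a') w) = p (a ((p (a' w) : W) : Fin m → ℝ))
  rw [this]
  rfl

lemma dl_one {m n : ℕ} {W : Submodule ℝ (Fin m → ℝ)} (b : Module.Basis (Fin n) ℝ W)
    (p : (Fin m → ℝ) →ₗ[ℝ] W) (hp : ∀ w : W, p w = w) : dl b p 1 = 1 := by
  rw [dl_eq]
  have : p ∘ₗ (1 : Op m).toLinearMap ∘ₗ W.subtype = LinearMap.id := by
    ext1 w
    exact hp w
  rw [this, LinearMap.det_id]

lemma dl_continuous {m n : ℕ} {W : Submodule ℝ (Fin m → ℝ)} (b : Module.Basis (Fin n) ℝ W)
    (p : (Fin m → ℝ) →ₗ[ℝ] W) : Continuous (dl b p) := by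
  unfold dl
  apply Continuous.matrix_det
  apply continuous_matrix
  intro i j
  have : Continuous (b.coord i ∘ₗ p) := LinearMap.continuous_of_finiteDimensional _
  exact this.comp (by fun_prop : Continuous (fun a : Op m => a (b j)))

lemma dl_small {m n : ℕ} (hn : 0 < n) {W : Submodule ℝ (Fin m → ℝ)}
    (b : Module.Basis (Fin n) ℝ W) (p : (Fin m → ℝ) →ₗ[ℝ] W) :
    ∃ η : ℝ, 0 < η ∧ ∀ a : Op m, (∀ j, ‖a (b j)‖ < η) → |dl b p a| < 1 / 2 := by
  have hc : Continuous (fun x : Fin n → (Fin m → ℝ) =>
      Matrix.det (Matrix.of fun i j => b.repr (p (x j)) i)) := by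
    apply Continuous.matrix_det
    apply continuous_matrix
    intro i j
    have : Continuous (b.coord i ∘ₗ p) := LinearMap.continuous_of_finiteDimensional _
    exact this.comp (by fun_prop : Continuous (fun x : Fin n → (Fin m → ℝ) => x j))
  have h0 : Matrix.det (Matrix.of fun i j => b.repr (p ((0 : Fin n → (Fin m → ℝ)) j)) i) = 0 := by
    have : Nonempty (Fin n) := ⟨⟨0, hn⟩⟩
    have : (Matrix.of fun i j => b.repr (p ((0 : Fin n → (Fin m → ℝ)) j)) i) = 0 := by
      ext i j
      simp
    rw [this, Matrix.det_zero]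
  have := Metric.continuousAt_iff.1 (hc.continuousAt (x := 0)) (1 / 2) (by norm_num)
  obtain ⟨η, hη, h⟩ := this
  refine ⟨η, hη, fun a ha => ?_⟩
  have h' := h (x := fun j => a (b j)) (by
    rw [dist_zero_right, pi_norm_lt_iff hη]
    exact ha)
  rw [h0, dist_zero_right] at h'
  exact h'

theorem det_part {m : ℕ} (ν : ℕ → Measure (Op m)) [∀ t, IsProbabilityMeasure (ν t)]
    (hconv : ∀ s t, ν (s + t) = ((ν s).prod (ν t)).map (fun p => p.1 * p.2))
    (ρ : Measure (Op m × Op m)) (h1 : ρ.map Prod.fst = ν 1) (h2 : ρ.map Prod.snd = ν 1)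
    (h12 : ∀ᵐ p ∂ρ, p.1 * p.2 = 1)
    (W : Submodule ℝ (Fin m → ℝ)) (hpres : ∀ t, 1 ≤ t → ∀ᵐ a ∂(ν t), Pres W a)
    (τ : ℕ → ℕ) (hτ : ∀ k, 1 ≤ τ k)
    (hk : ∀ w ∈ W, Tendsto (fun k => psi (ν (τ k)) w) atTop (𝓝 0)) : W = ⊥ := by
  classical
  by_contra hne
  obtain ⟨p, hp⟩ := LinearMap.exists_leftInverse_of_injective W.subtype (by simp)
  have hp' : ∀ w : W, p w = w := fun w => by
    have := LinearMap.congr_fun hp w
    simpa using this
  let b := Module.finBasis ℝ W
  set n := Module.finrank ℝ W with hn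
  have hn0 : 0 < n := by
    rw [hn]
    rw [Nat.pos_iff_ne_zero]
    intro h
    exact hne (Submodule.finrank_eq_zero.1 h)
  have hmδ : Measurable (dl b p) := (dl_continuous b p).measurable
  -- ρ-a.e. facts
  have hρ : ∀ᵐ q ∂ρ, dl b p q.1 * dl b p q.2 = 1 := by
    have e2 : ∀ᵐ q ∂ρ, Pres W q.2 := by
      have := hpres 1 le_rfl
      rw [← h2] at this
      exact ae_of_ae_map measurable_snd.aemeasurable this
    filter_upwards [e2, h12] with q hq2 hq
    rw [← dl_mul b p hp' hq2, hq, dl_one b p hp']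
  -- symmetric law
  have hsym1 : ((ν 1).map (dl b p)).map (·⁻¹) = (ν 1).map (dl b p) := by
    conv_lhs => rw [← h1]
    conv_rhs => rw [← h2]
    rw [Measure.map_map hmδ measurable_fst, Measure.map_map measurable_inv (hmδ.comp measurable_fst),
      Measure.map_map hmδ measurable_snd]
    apply Measure.map_congr
    filter_upwards [hρ] with q hq
    show (dl b p q.1)⁻¹ = dl b p q.2
    exact inv_eq_of_mul_eq_one_right hq
  have hmm : ∀ t, (ν (t + 1)).map (dl b p)
      = (((ν t).map (dl b p)).prod ((ν 1).map (dl b p))).map (fun q => q.1 * q.2) := by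
    intro t
    rw [hconv, Measure.map_prod_map _ _ hmδ hmδ, Measure.map_map hmδ measurable_mul,
      Measure.map_map measurable_mul (by fun_prop)]
    apply Measure.map_congr
    have e2 : ∀ᵐ q ∂((ν t).prod (ν 1)), Pres W q.2 :=
      Measure.quasiMeasurePreserving_snd.ae (hpres 1 le_rfl)
    filter_upwards [e2] with q hq
    exact dl_mul b p hp' hq
  have hsym : ∀ t, 1 ≤ t → ((ν t).map (dl b p)).map (·⁻¹) = (ν t).map (dl b p) := by
    intro t ht
    induction t, ht using Nat.le_induction with
    | base => exact hsym1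
    | succ t ht ih =>
      rw [hmm]
      rw [Measure.map_map measurable_inv measurable_mul]
      conv_rhs => rw [← ih, ← hsym1]
      have : IsProbabilityMeasure ((ν t).map (dl b p)) := Measure.isProbabilityMeasure_map hmδ.aemeasurable
      have : IsProbabilityMeasure ((ν 1).map (dl b p)) := Measure.isProbabilityMeasure_map hmδ.aemeasurable
      rw [Measure.map_prod_map _ _ measurable_inv measurable_inv,
        Measure.map_map measurable_mul (by fun_prop)]
      congr 1
      ext q
      simp [mul_comm]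
  -- nonvanishing
  have hms0 : MeasurableSet {x : ℝ | x ≠ 0} := (measurableSet_singleton 0).compl
  have hne1 : ∀ᵐ x ∂((ν 1).map (dl b p)), x ≠ 0 := by
    rw [← h1, Measure.map_map hmδ measurable_fst]
    rw [ae_map_iff (hmδ.comp measurable_fst).aemeasurable hms0]
    filter_upwards [hρ] with q hq h0
    simp only [Function.comp_apply] at h0
    rw [h0, zero_mul] at hq
    exact zero_ne_one hq
  have hne : ∀ t, 1 ≤ t → ∀ᵐ x ∂((ν t).map (dl b p)), x ≠ 0 := by
    intro t ht
    induction t, ht using Nat.le_induction with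
    | base => exact hne1
    | succ t ht ih =>
      rw [hmm]
      rw [ae_map_iff measurable_mul.aemeasurable hms0]
      have e1 := (Measure.quasiMeasurePreserving_fst (μ := (ν t).map (dl b p))
        (ν := (ν 1).map (dl b p))).ae ih
      have e2 := (Measure.quasiMeasurePreserving_snd (μ := (ν t).map (dl b p))
        (ν := (ν 1).map (dl b p))).ae hne1
      filter_upwards [e1, e2] with q hq1 hq2
      exact mul_ne_zero hq1 hq2
  -- smallness
  obtain ⟨η, hη, hsmall⟩ := dl_small hn0 b p
  have hlim : Tendsto (fun k => (ν (τ k)) {a | ¬ |dl b p a| < 1 / 2}) atTop (𝓝 0) := by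
    have hη' : (min 1 (ENNReal.ofReal η)) ≠ 0 := by
      simp [hη]
    have hη'' : (min 1 (ENNReal.ofReal η)) ≠ ⊤ := by simp
    have hb : ∀ k, (ν (τ k)) {a | ¬ |dl b p a| < 1 / 2} ≤
        ∑ j : Fin n, psi (ν (τ k)) (b j) / (min 1 (ENNReal.ofReal η)) := by
      intro k
      have hsub : {a : Op m | ¬ |dl b p a| < 1 / 2} ⊆
          ⋃ j : Fin n, {a : Op m | min 1 (ENNReal.ofReal η) ≤ min 1 ‖a (b j)‖ₑ} := by
        intro a ha
        by_contra hcon
        apply ha
        apply hsmall
        intro j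
        by_contra hj
        apply hcon
        simp only [Set.mem_iUnion, Set.mem_ofPred_eq]
        refine ⟨j, ?_⟩
        gcongr
        rw [← ofReal_norm]
        exact ENNReal.ofReal_le_ofReal (not_lt.1 hj)
      refine (measure_mono hsub).trans ((measure_iUnion_fintype_le _ _).trans ?_)
      refine Finset.sum_le_sum fun j _ => ?_
      exact meas_ge_le_lintegral_div (meas_eval1 _).aemeasurable hη' hη''
    have hz : Tendsto (fun k => ∑ j : Fin n, psi (ν (τ k)) (b j) / (min 1 (ENNReal.ofReal η)))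
        atTop (𝓝 0) := by
      have : (0 : ℝ≥0∞) = ∑ j : Fin n, 0 / (min 1 (ENNReal.ofReal η)) := by simp
      rw [this]
      refine tendsto_finsetSum _ fun j _ => ?_
      exact ENNReal.Tendsto.div_const (hk _ (b j).2) (Or.inr hη')
    exact tendsto_of_tendsto_of_tendsto_of_le_of_le tendsto_const_nhds hz (fun _ => zero_le) hb
  obtain ⟨k, hk'⟩ := (hlim.eventually_lt_const (u := 1 / 2) (by simp)).exists
  have : IsProbabilityMeasure ((ν (τ k)).map (dl b p)) := Measure.isProbabilityMeasure_map hmδ.aemeasurable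
  set Λ := (ν (τ k)).map (dl b p) with hΛ
  have hA : MeasurableSet {x : ℝ | ¬ |x| < 1 / 2} := by
    apply MeasurableSet.compl
    exact (isOpen_lt continuous_abs continuous_const).measurableSet
  have hl1 : Λ {x | ¬ |x| < 1 / 2} < 1 / 2 := by
    rw [hΛ, Measure.map_apply hmδ hA]
    exact hk'
  have hl2 : Λ ((·⁻¹) ⁻¹' {x | ¬ |x| < 1 / 2}) < 1 / 2 := by
    rw [← Measure.map_apply measurable_inv hA, hΛ, hsym _ (hτ k)]
    exact hl1
  have hl3 : Λ {x | ¬ x ≠ 0} = 0 := hne _ (hτ k)
  have hcover : (Set.univ : Set ℝ) ⊆ {x | ¬ x ≠ 0} ∪ ({x | ¬ |x| < 1 / 2} ∪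
      ((·⁻¹) ⁻¹' {x : ℝ | ¬ |x| < 1 / 2})) := by
    intro x _
    by_cases hx : x = 0
    · left; simpa using hx
    · right
      by_cases hx2 : |x| < 1 / 2
      · right
        simp only [Set.mem_preimage, Set.mem_ofPred_eq, abs_inv, not_lt]
        have : 0 < |x| := abs_pos.2 hx
        rw [le_inv_comm₀ (by norm_num) this]
        linarith
      · left; exact hx2
  have h1' : (1 : ℝ≥0∞) ≤ Λ {x | ¬ |x| < 1 / 2} + Λ ((·⁻¹) ⁻¹' {x | ¬ |x| < 1 / 2}) := by
    calc (1 : ℝ≥0∞) = Λ Set.univ := measure_univ.symm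
      _ ≤ _ := measure_mono hcover
      _ ≤ _ := measure_union_le _ _
      _ ≤ _ := by
        rw [hl3, zero_add]
        exact measure_union_le _ _
  have h2' : Λ {x | ¬ |x| < 1 / 2} + Λ ((·⁻¹) ⁻¹' {x | ¬ |x| < 1 / 2}) < 1 / 2 + 1 / 2 :=
    ENNReal.add_lt_add hl1 hl2
  rw [ENNReal.add_halves] at h2'
  exact absurd (h1'.trans_lt h2') (lt_irrefl _)


/-! ### From the process to the laws -/

section Process

variable {Ω : Type*} {mΩ : MeasurableSpace Ω} {P : Measure Ω} {m : ℕ}

/-- Ordered product of the operators indexed by a list. -/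
noncomputable def lprod (Z : ℕ → Ω → Op m) (l : List ℕ) (ω : Ω) : Op m :=
  (l.map (fun i => Z i ω)).prod

lemma measurable_lprod (Z : ℕ → Ω → Op m) (m' : MeasurableSpace Ω) (l : List ℕ)
    (h : ∀ i ∈ l, Measurable[m'] (Z i)) : Measurable[m'] (lprod Z l) := by
  induction l with
  | nil => exact measurable_const
  | cons i l ih =>
    have h1 := h i (by simp)
    have h2 := ih (fun j hj => h j (by simp [hj]))
    have : lprod Z (i :: l) = fun ω => Z i ω * lprod Z l ω := by
      ext ω
      simp [lprod]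
    rw [this]
    exact Measurable.mul h1 h2

lemma indep_blocks (Z : ℕ → Ω → Op m) (hZ : ∀ i, Measurable (Z i)) (hind : iIndepFun Z P)
    (l l' : List ℕ) (hd : ∀ i ∈ l, i ∉ l') : IndepFun (lprod Z l) (lprod Z l') P := by
  have hI : iIndep (fun i => MeasurableSpace.comap (Z i) inferInstance) P := hind
  have := indep_iSup_of_disjoint (fun i => (hZ i).comap_le) hI
    (S := {i | i ∈ l}) (T := {i | i ∈ l'}) (by
      rw [Set.disjoint_left]
      intro i hi hi'
      exact hd i hi hi')
  refine indep_of_indep_of_le_left (indep_of_indep_of_le_right this ?_) ?_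
  · apply Measurable.comap_le
    apply measurable_lprod
    intro i hi
    refine (comap_measurable (Z i)).mono ?_ le_rfl
    exact le_iSup₂_of_le i hi le_rfl
  · apply Measurable.comap_le
    apply measurable_lprod
    intro i hi
    refine (comap_measurable (Z i)).mono ?_ le_rfl
    exact le_iSup₂_of_le i hi le_rfl

/-- Convolution powers. -/
noncomputable def cpow (μ1 : Measure (Op m)) : ℕ → Measure (Op m)
  | 0 => Measure.dirac 1
  | n + 1 => (μ1.prod (cpow μ1 n)).map (fun p => p.1 * p.2)

lemma law_lprod [IsProbabilityMeasure P] (Z : ℕ → Ω → Op m) (hZ : ∀ i, Measurable (Z i))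
    (hind : iIndepFun Z P) (μ1 : Measure (Op m)) (hlaw : ∀ i, P.map (Z i) = μ1)
    (l : List ℕ) (hl : l.Nodup) : P.map (lprod Z l) = cpow μ1 l.length := by
  induction l with
  | nil =>
    have : lprod Z [] = fun _ => 1 := by ext ω; simp [lprod]
    rw [this, Measure.map_const]
    simp [cpow]
  | cons i l ih =>
    rw [List.nodup_cons] at hl
    have h1 : IndepFun (lprod Z [i]) (lprod Z l) P := by
      apply indep_blocks Z hZ hind
      intro j hj
      simp only [List.mem_singleton] at hj
      rw [hj]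
      exact hl.1
    have h2 : lprod Z [i] = Z i := by
      ext ω
      simp [lprod]
    rw [h2] at h1
    have hm : Measurable (lprod Z l) := measurable_lprod Z _ l (fun i _ => hZ i)
    have h3 := (indepFun_iff_map_prod_eq_prod_map_map (hZ i).aemeasurable hm.aemeasurable).1 h1
    have h4 : lprod Z (i :: l) = (fun p : Op m × Op m => p.1 * p.2) ∘ (fun ω => (Z i ω, lprod Z l ω)) := by
      ext ω
      simp [lprod]
    rw [h4, ← Measure.map_map measurable_mul ((hZ i).prodMk hm), h3, hlaw, ih hl.2]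
    rfl

theorem op_level [IsProbabilityMeasure P] (Z : ℕ → Ω → Op m) (hZ : ∀ i, Measurable (Z i))
    (hind : iIndepFun Z P) (μ1 : Measure (Op m)) (hlaw : ∀ i, P.map (Z i) = μ1)
    (Z' : Ω → Op m) (hZ' : Measurable Z') (hlaw' : P.map Z' = μ1)
    (hZZ' : ∀ ω, Z 0 ω * Z' ω = 1) (v : Fin m → ℝ)
    (hconv : ∀ᵐ ω ∂P, ∃ l, Tendsto (fun t => lprod Z (List.range t) ω v) atTop (𝓝 l)) :
    ∀ᵐ ω ∂P, Z 0 ω v = v := by
  have hml : ∀ l, Measurable (lprod Z l) := fun l => measurable_lprod Z _ l (fun i _ => hZ i)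
  let ν : ℕ → Measure (Op m) := fun t => P.map (lprod Z (List.range t))
  have hν : ∀ t, IsProbabilityMeasure (ν t) := fun t =>
    Measure.isProbabilityMeasure_map (hml _).aemeasurable
  have hblock : ∀ s t, P.map (fun ω => (lprod Z (List.range s) ω,
      lprod Z ((List.range t).map (s + ·)) ω)) = (ν s).prod (ν t) := by
    intro s t
    have hi : IndepFun (lprod Z (List.range s)) (lprod Z ((List.range t).map (s + ·))) P := by
      apply indep_blocks Z hZ hind
      intro i hi hi'
      simp only [List.mem_range] at hi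
      simp only [List.mem_map, List.mem_range] at hi'
      omega
    rw [(indepFun_iff_map_prod_eq_prod_map_map (hml _).aemeasurable (hml _).aemeasurable).1 hi]
    congr 1
    show _ = P.map (lprod Z (List.range t))
    rw [law_lprod Z hZ hind μ1 hlaw, law_lprod Z hZ hind μ1 hlaw]
    · simp
    · exact List.nodup_range
    · exact List.nodup_range.map (fun a b h => by simpa using h)
  have hsplit : ∀ s t ω, lprod Z (List.range (s + t)) ω
      = lprod Z (List.range s) ω * lprod Z ((List.range t).map (s + ·)) ω := by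
    intro s t ω
    unfold lprod
    rw [List.range_add, List.map_append, List.prod_append]
  have hc : ∀ s t, ν (s + t) = ((ν s).prod (ν t)).map (fun p => p.1 * p.2) := by
    intro s t
    rw [← hblock, Measure.map_map measurable_mul ((hml _).prodMk (hml _))]
    have h0 : lprod Z (List.range (s + t)) = (fun p : Op m × Op m => p.1 * p.2) ∘ (fun ω =>
        (lprod Z (List.range s) ω, lprod Z ((List.range t).map (s + ·)) ω)) := by
      ext1 ω
      exact hsplit s t ω
    show P.map (lprod Z (List.range (s + t))) = _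
    rw [h0]
  have hν1 : ν 1 = μ1 := by
    have h0 : lprod Z (List.range 1) = Z 0 := by
      ext1 ω
      simp [lprod]
    show P.map (lprod Z (List.range 1)) = _
    rw [h0, hlaw 0]
  have hcv : ∀ s, Tendsto (fun t => ∫⁻ p, min 1 ‖p.1 (p.2 v - v)‖ₑ ∂((ν t).prod (ν s)))
      atTop (𝓝 0) := by
    intro s
    have hmv : Measurable (fun b : Op m => b v - v) :=
      (by fun_prop : Continuous (fun b : Op m => b v - v)).measurable
    have e : ∀ t, ∫⁻ p, min 1 ‖p.1 (p.2 v - v)‖ₑ ∂((ν t).prod (ν s))
        = ∫⁻ ω, min 1 ‖lprod Z (List.range (t + s)) ω v - lprod Z (List.range t) ω v‖ₑ ∂P := by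
      intro t
      have hmeas : Measurable (fun p : Op m × Op m => min (1 : ℝ≥0∞) ‖p.1 (p.2 v - v)‖ₑ) :=
        meas_eval measurable_fst (hmv.comp measurable_snd)
      rw [← hblock, lintegral_map hmeas ((hml _).prodMk (hml _))]
      apply lintegral_congr
      intro ω
      rw [hsplit, map_sub]
      rfl
    simp_rw [e]
    have e0 : (0 : ℝ≥0∞) = ∫⁻ _ : Ω, 0 ∂P := by simp
    rw [e0]
    have hmm : ∀ n : ℕ, Measurable (fun ω => min (1 : ℝ≥0∞)
        ‖lprod Z (List.range (n + s)) ω v - lprod Z (List.range n) ω v‖ₑ) := by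
      intro n
      have hev : Measurable (fun b : Op m => b v) :=
        (by fun_prop : Continuous (fun b : Op m => b v)).measurable
      exact measurable_const.min (((hev.comp (hml _)).sub (hev.comp (hml _))).enorm)
    refine tendsto_lintegral_of_dominated_convergence (fun _ => 1) hmm ?_ ?_ ?_
    · intro n
      exact Eventually.of_forall fun ω => min_le_left _ _
    · simp
    · filter_upwards [hconv] with ω hω
      obtain ⟨l, hl⟩ := hω
      have h1 : Tendsto (fun t => lprod Z (List.range (t + s)) ω v - lprod Z (List.range t) ω v)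
          atTop (𝓝 (l - l)) := ((tendsto_add_atTop_iff_nat s).2 hl).sub hl
      rw [sub_self] at h1
      have h2 := (continuous_enorm.tendsto _).comp h1
      simp only [enorm_zero] at h2
      have h3 := (tendsto_const_nhds (x := (1 : ℝ≥0∞))).min h2
      simpa using h3
  obtain ⟨W, hW1, hW2, τ, hτ, hk⟩ := exists_min ν hc v hcv
  have hbot : W = ⊥ := by
    refine det_part ν hc (P.map (fun ω => (Z 0 ω, Z' ω))) ?_ ?_ ?_ W hW2 τ hτ hk
    · rw [Measure.map_map measurable_fst ((hZ 0).prodMk hZ'), hν1, ← hlaw 0]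
      rfl
    · rw [Measure.map_map measurable_snd ((hZ 0).prodMk hZ'), hν1, ← hlaw']
      rfl
    · rw [ae_map_iff ((hZ 0).prodMk hZ').aemeasurable]
      · exact Eventually.of_forall hZZ'
      · exact (isClosed_eq (by fun_prop) (by fun_prop)).measurableSet
  rw [hν1, ← hlaw 0] at hW1
  have := ae_of_ae_map (hZ 0).aemeasurable hW1
  filter_upwards [this] with ω hω
  rw [hbot, Submodule.mem_bot, sub_eq_zero] at hω
  exact hω

end Process


/-! ### The group level -/

section Group

variable {G : Type*} [Group G]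

/-- The linear span of the left translates of `f`. -/
abbrev orb (f : G → ℝ) : Submodule ℝ (G → ℝ) :=
  Submodule.span ℝ (Set.range fun γ : G => fun x : G => f (γ⁻¹ * x))

lemma translate_mem (f : G → ℝ) (γ : G) {h : G → ℝ} (hh : h ∈ orb f) :
    (fun x => h (γ * x)) ∈ orb f := by
  induction hh using Submodule.span_induction with
  | mem h hh =>
    obtain ⟨δ, rfl⟩ := hh
    apply Submodule.subset_span
    refine ⟨γ⁻¹ * δ, ?_⟩
    ext x
    simp [mul_assoc]
  | zero => exact Submodule.zero_mem _
  | add h k _ _ hh hk => exact Submodule.add_mem _ hh hk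
  | smul c h _ hh => exact Submodule.smul_mem _ c hh

/-- Left translation on the orbit span. -/
noncomputable def tr (f : G → ℝ) (γ : G) : orb f →ₗ[ℝ] orb f where
  toFun h := ⟨fun x => (h : G → ℝ) (γ * x), translate_mem f γ h.2⟩
  map_add' _ _ := rfl
  map_smul' _ _ := rfl

lemma tr_apply (f : G → ℝ) (γ : G) (h : orb f) (x : G) :
    ((tr f γ h : orb f) : G → ℝ) x = (h : G → ℝ) (γ * x) := rfl

variable (f : G → ℝ) [FiniteDimensional ℝ (orb f)]

/-- Evaluation functional. -/
noncomputable def ev (g : G) : Module.Dual ℝ (orb f) where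
  toFun h := (h : G → ℝ) g
  map_add' _ _ := rfl
  map_smul' _ _ := rfl

lemma span_ev : Submodule.span ℝ (Set.range (ev f)) = ⊤ := by
  rw [← Subspace.dualCoannihilator_dualAnnihilator_eq (W := Submodule.span ℝ (Set.range (ev f)))]
  have : (Submodule.span ℝ (Set.range (ev f))).dualCoannihilator = ⊥ := by
    rw [eq_bot_iff]
    intro h hh
    rw [Submodule.mem_dualCoannihilator] at hh
    rw [Submodule.mem_bot]
    ext x
    exact hh _ (Submodule.subset_span ⟨x, rfl⟩)
  rw [this]
  simp

/-- The matrix of left translation acting on value vectors. -/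
noncomputable def Mop (γ : G) : Op (Module.finrank ℝ (orb f)) :=
  LinearMap.toContinuousLinearMap
    { toFun := fun w i => ∑ j, (Module.finBasis ℝ (orb f)).repr (tr f γ (Module.finBasis ℝ (orb f) i)) j * w j
      map_add' := by
        intro w w'
        ext i
        simp [mul_add, Finset.sum_add_distrib]
      map_smul' := by
        intro c w
        ext i
        simp only [Pi.smul_apply, smul_eq_mul, RingHom.id_apply, Finset.mul_sum]
        apply Finset.sum_congr rfl
        intro j _
        ring }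

lemma Mop_apply (γ : G) (w : Fin (Module.finrank ℝ (orb f)) → ℝ) (i) :
    Mop f γ w i = ∑ j, (Module.finBasis ℝ (orb f)).repr (tr f γ (Module.finBasis ℝ (orb f) i)) j * w j :=
  rfl

/-- The value vector at `g`. -/
noncomputable def Phi (g : G) : Fin (Module.finrank ℝ (orb f)) → ℝ := fun i =>
  (Module.finBasis ℝ (orb f) i : G → ℝ) g

lemma repr_eval (h : orb f) (g : G) :
    (h : G → ℝ) g = ∑ j, (Module.finBasis ℝ (orb f)).repr h j * Phi f g j := by
  conv_lhs => rw [← (Module.finBasis ℝ (orb f)).sum_repr h]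
  rw [Submodule.coe_sum, Finset.sum_apply]
  rfl

lemma Mop_Phi (γ g : G) : Mop f γ (Phi f g) = Phi f (γ * g) := by
  ext i
  rw [Mop_apply, ← repr_eval, tr_apply]
  rfl

lemma Mop_eq_of_eval {A B : Op (Module.finrank ℝ (orb f))}
    (h : ∀ g, A (Phi f g) = B (Phi f g)) : A = B := by
  -- the value vectors span
  have hspan : Submodule.span ℝ (Set.range (Phi f)) = ⊤ := by
    rw [← Subspace.dualAnnihilator_inj, Submodule.dualAnnihilator_top, eq_bot_iff]
    intro φ hφ
    rw [Submodule.mem_bot]
    rw [Submodule.mem_dualAnnihilator] at hφ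
    -- the functional φ corresponds to an element of the orbit span
    let h : orb f := ∑ j, φ (Pi.single j 1) • Module.finBasis ℝ (orb f) j
    have hh : ∀ g, (h : G → ℝ) g = φ (Phi f g) := by
      intro g
      have : φ (Phi f g) = ∑ j, Phi f g j * φ (Pi.single j 1) := by
        conv_lhs => rw [← Finset.univ_sum_single (Phi f g), map_sum]
        apply Finset.sum_congr rfl
        intro j _
        rw [← smul_eq_mul, ← map_smul]
        congr 1
        ext k
        simp [Pi.single_apply]
      rw [this]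
      show ((∑ j, φ (Pi.single j 1) • Module.finBasis ℝ (orb f) j : orb f) : G → ℝ) g = _
      rw [Submodule.coe_sum, Finset.sum_apply]
      apply Finset.sum_congr rfl
      intro j _
      rw [mul_comm]
      rfl
    have h0 : h = 0 := by
      ext g
      rw [hh g]
      exact hφ _ (Submodule.subset_span ⟨g, rfl⟩)
    have hcoef : ∀ j, φ (Pi.single j 1) = 0 := by
      intro j
      have := Fintype.linearIndependent_iff.1 (Module.finBasis ℝ (orb f)).linearIndependent
        (fun j => φ (Pi.single j 1)) h0 j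
      exact this
    apply LinearMap.pi_ext'
    intro j
    ext
    simpa using hcoef j
  have : A.toLinearMap = B.toLinearMap := by
    apply LinearMap.ext_on hspan
    rintro _ ⟨g, rfl⟩
    exact h g
  exact ContinuousLinearMap.coe_injective this

lemma Mop_mul (γ γ' : G) : Mop f (γ * γ') = Mop f γ * Mop f γ' := by
  apply Mop_eq_of_eval
  intro g
  rw [Mop_Phi]
  show _ = Mop f γ (Mop f γ' (Phi f g))
  rw [Mop_Phi, Mop_Phi, mul_assoc]

lemma Mop_one : Mop f 1 = 1 := by
  apply Mop_eq_of_eval
  intro g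
  rw [Mop_Phi, one_mul]
  rfl

lemma Mop_list (l : List G) : Mop f l.prod = (l.map (Mop f)).prod := by
  induction l with
  | nil => simp [Mop_one]
  | cons a l ih => simp [Mop_mul, ih]

variable [TopologicalSpace G] [IsTopologicalGroup G]

omit [FiniteDimensional ℝ (orb f)] in
lemma continuous_of_mem (hf : Continuous f) {h : G → ℝ} (hh : h ∈ orb f) : Continuous h := by
  induction hh using Submodule.span_induction with
  | mem h hh =>
    obtain ⟨δ, rfl⟩ := hh
    exact hf.comp (continuous_const.mul continuous_id)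
  | zero => exact continuous_const
  | add h k _ _ hh hk => exact hh.add hk
  | smul c h _ hh => exact hh.const_smul c

lemma continuous_dual (hf : Continuous f) (φ : Module.Dual ℝ (orb f)) (h : orb f) :
    Continuous (fun γ => φ (tr f γ h)) := by
  have hφ : φ ∈ Submodule.span ℝ (Set.range (ev f)) := by rw [span_ev]; trivial
  induction hφ using Submodule.span_induction with
  | mem φ hφ =>
    obtain ⟨g, rfl⟩ := hφ
    exact (continuous_of_mem f hf h.2).comp (continuous_id.mul continuous_const)
  | zero => exact continuous_const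
  | add φ ψ _ _ hφ hψ => exact hφ.add hψ
  | smul c φ _ hφ => exact hφ.const_smul c

lemma continuous_Mop (hf : Continuous f) : Continuous (Mop f) := by
  rw [continuous_clm_apply]
  intro w
  apply continuous_pi
  intro i
  simp only [Mop_apply]
  refine continuous_finsetSum _ fun j _ => ?_
  refine Continuous.mul ?_ continuous_const
  exact continuous_dual f hf ((Module.finBasis ℝ (orb f)).coord j) _

end Group

/-- **Orbit spans are infinite dimensional.** -/
theorem result {G : Type*} [Group G] [TopologicalSpace G] [IsTopologicalGroup G]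
    [MeasurableSpace G] [BorelSpace G]
    (μ : Measure G) [IsProbabilityMeasure μ]
    (hadapted : ∀ H : Subgroup G, IsClosed (H : Set G) → H ≠ ⊤ → μ (H : Set G) < 1)
    (hsymm : ∀ A : Set G, MeasurableSet A → μ (A⁻¹) = μ A)
    {Ω : Type*} [MeasurableSpace Ω] (P : Measure Ω) [IsProbabilityMeasure P]
    (U : ℕ → Ω → G) (hU : ∀ i, Measurable (U i)) (hlaw : ∀ i, P.map (U i) = μ)
    (hind : iIndepFun U P)
    (f : G → ℝ) (hf : Continuous f) (hnc : ¬ ∃ c : ℝ, ∀ x, f x = c)
    (hconv : ∀ x : G, ∀ᵐ ω ∂P, ∃ l : ℝ,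
      Tendsto (fun t : ℕ => f (x * ((List.range t).map (fun i => U i ω)).prod)) atTop (𝓝 l)) :
    ¬ FiniteDimensional ℝ
      (Submodule.span ℝ (Set.range fun γ : G => fun x : G => f (γ⁻¹ * x))) := by
  intro hfin
  change FiniteDimensional ℝ (orb f) at hfin
  apply hnc
  have hM : Measurable (Mop f) := (continuous_Mop f hf).measurable
  have hinvm : Measurable (fun g : G => g⁻¹) := continuous_inv.measurable
  let X : ℕ → Ω → G := fun t ω => ((List.range t).map (fun i => U i ω)).prod
  -- convergence of all elements of the orbit span along the walk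
  have hall : ∀ h ∈ orb f, ∀ᵐ ω ∂P, ∃ l : ℝ, Tendsto (fun t : ℕ => h (X t ω)) atTop (𝓝 l) := by
    intro h hh
    induction hh using Submodule.span_induction with
    | mem h hh =>
      obtain ⟨δ, rfl⟩ := hh
      exact hconv δ⁻¹
    | zero => exact Eventually.of_forall fun ω => ⟨0, tendsto_const_nhds⟩
    | add h k _ _ hh hk =>
      filter_upwards [hh, hk] with ω h1 h2
      obtain ⟨l1, h1⟩ := h1
      obtain ⟨l2, h2⟩ := h2
      exact ⟨l1 + l2, h1.add h2⟩
    | smul c h _ hh =>
      filter_upwards [hh] with ω h1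
      obtain ⟨l1, h1⟩ := h1
      exact ⟨c • l1, h1.const_smul c⟩
  have hvec : ∀ᵐ ω ∂P, ∃ l, Tendsto
      (fun t => lprod (fun i ω => Mop f (U i ω)) (List.range t) ω (Phi f 1)) atTop (𝓝 l) := by
    have : ∀ᵐ ω ∂P, ∀ i, ∃ l : ℝ,
        Tendsto (fun t : ℕ => (Module.finBasis ℝ (orb f) i : G → ℝ) (X t ω)) atTop (𝓝 l) := by
      rw [ae_all_iff]
      intro i
      exact hall _ (Module.finBasis ℝ (orb f) i).2
    filter_upwards [this] with ω hω
    choose l hl using hω
    refine ⟨l, ?_⟩
    have e : ∀ t, lprod (fun i ω => Mop f (U i ω)) (List.range t) ω (Phi f 1) = Phi f (X t ω) := by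
      intro t
      have : lprod (fun i ω => Mop f (U i ω)) (List.range t) ω = Mop f (X t ω) := by
        rw [Mop_list, List.map_map]
        rfl
      rw [this, Mop_Phi, mul_one]
    simp_rw [e]
    rw [tendsto_pi_nhds]
    exact hl
  have hkey : ∀ᵐ ω ∂P, Mop f (U 0 ω) (Phi f 1) = Phi f 1 := by
    refine op_level (P := P) (fun i ω => Mop f (U i ω)) (fun i => hM.comp (hU i)) ?_
      (μ.map (Mop f)) ?_ (fun ω => Mop f (U 0 ω)⁻¹) (hM.comp (hinvm.comp (hU 0))) ?_ ?_ _ hvec
    · exact hind.comp (fun _ => Mop f) (fun _ => hM)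
    · intro i
      rw [← hlaw i, Measure.map_map hM (hU i)]
      rfl
    · have hinvmap : μ.map (fun g : G => g⁻¹) = μ := by
        ext A hA
        rw [Measure.map_apply hinvm hA]
        exact hsymm A hA
      conv_rhs => rw [← hinvmap, ← hlaw 0]
      rw [Measure.map_map hM hinvm, Measure.map_map (hM.comp hinvm) (hU 0)]
      rfl
    · intro ω
      rw [← Mop_mul, mul_inv_cancel, Mop_one]
  -- the stabiliser
  let H : Subgroup G :=
    { carrier := {g | ∀ x, f (x * g) = f x}
      mul_mem' := by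
        intro a b ha hb x
        rw [← mul_assoc, hb, ha]
      one_mem' := by intro x; rw [mul_one]
      inv_mem' := by
        intro a ha x
        have := ha (x * a⁻¹)
        rw [inv_mul_cancel_right] at this
        exact this.symm }
  have hHclosed : IsClosed (H : Set G) := by
    have : (H : Set G) = ⋂ x, {g | f (x * g) = f x} := by
      ext g
      simp [H]
    rw [this]
    exact isClosed_iInter fun x =>
      isClosed_eq (hf.comp (continuous_const.mul continuous_id)) continuous_const
  have hH1 : μ (H : Set G) = 1 := by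
    rw [← hlaw 0, Measure.map_apply (hU 0) hHclosed.measurableSet]
    rw [← measure_univ (μ := P)]
    apply measure_congr
    filter_upwards [hkey] with ω hω
    rw [Mop_Phi, mul_one] at hω
    have hmem : U 0 ω ∈ H := by
      intro x
      have hx : (fun y => f (x * y)) ∈ orb f := by
        apply Submodule.subset_span
        exact ⟨x⁻¹, by simp⟩
      have h1 := repr_eval f ⟨_, hx⟩ (U 0 ω)
      have h2 := repr_eval f ⟨_, hx⟩ 1
      rw [hω, ← h2] at h1
      simpa using h1
    exact eq_true hmem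
  have htop : H = ⊤ := by
    by_contra hne
    exact absurd hH1 (hadapted H hHclosed hne).ne
  refine ⟨f 1, fun x => ?_⟩
  have hx : x ∈ H := by rw [htop]; trivial
  have := hx 1
  rwa [one_mul] at this

end Pool.Agent.Results.MP_0b4a43_pr.OrbitSpan
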